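import Pool.Agent.K1H76.RG.Stm

/-!
# Character sums over characters of given order modulo a prime
-/

set_option autoImplicit false

namespace Pool.Agent.K1H68.RG

open Filter Finset Topology
open Pool.Agent.K1H76.RG

open Classical in
/-- sum over the characters with `χ ^ n = 1` -/
noncomputable def SS (p n : ℕ) (b : ZMod p) : ℂ :=
  ∑ χ ∈ (Xall p).filter (fun χ => χ ^ n = 1), χ b

/-- sum over the characters of order `n` -/
noncomputable def RR (p n : ℕ) (b : ZMod p) : ℂ := ∑ χ ∈ Xd n p, χ b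

lemma SS_eq (p n : ℕ) (hn : 0 < n) (b : ZMod p) : ∑ m ∈ n.divisors, RR p m b = SS p n b := by
  classical
  unfold SS RR
  have h : (Xall p).filter (fun χ => χ ^ n = 1) = n.divisors.biUnion (fun m => Xd m p) := by
    ext χ
    simp only [mem_filter, mem_Xall, true_and, mem_biUnion, mem_Xd, Nat.mem_divisors,
      ← orderOf_dvd_iff_pow_eq_one]
    constructor
    · intro h; exact ⟨_, ⟨h, hn.ne'⟩, rfl⟩
    · rintro ⟨m, ⟨h1, _⟩, h2⟩; rw [h2]; exact h1
  rw [h, Finset.sum_biUnion]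
  intro m _ m' _ hmm
  rw [Function.onFun, Finset.disjoint_left]
  intro χ h1 h2
  rw [mem_Xd] at h1 h2
  exact hmm (h1.symm.trans h2)

lemma RR_eq (p n : ℕ) (hn : 0 < n) (b : ZMod p) :
    RR p n b = ∑ x ∈ n.divisorsAntidiagonal, (ArithmeticFunction.moebius x.1 : ℂ) * SS p x.2 b := by
  have := (ArithmeticFunction.sum_eq_iff_sum_mul_moebius_eq (f := fun m => RR p m b)
    (g := fun m => SS p m b)).1 (fun m hm => SS_eq p m hm b) n hn
  exact this.symm

/-- the Moebius inversion for the gcd -/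
lemma moebius_gcd (n g : ℕ) (hn : 0 < n) :
    ∑ x ∈ n.divisorsAntidiagonal, (ArithmeticFunction.moebius x.1 : ℂ) * (Nat.gcd x.2 g : ℂ) =
      if n ∣ g then (n.totient : ℂ) else 0 := by
  classical
  refine (ArithmeticFunction.sum_eq_iff_sum_mul_moebius_eq
    (f := fun m => if m ∣ g then (m.totient : ℂ) else 0)
    (g := fun m => (Nat.gcd m g : ℂ))).1 (fun m hm => ?_) n hn
  rw [← Finset.sum_filter]
  have h : (m.divisors).filter (fun k => k ∣ g) = (Nat.gcd m g).divisors := by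
    ext k
    simp only [mem_filter, Nat.mem_divisors, Nat.dvd_gcd_iff]
    have : Nat.gcd m g ≠ 0 := by
      intro h; rw [Nat.gcd_eq_zero_iff] at h; omega
    constructor
    · rintro ⟨⟨h1, _⟩, h2⟩; exact ⟨⟨h1, h2⟩, this⟩
    · rintro ⟨⟨h1, h2⟩, _⟩; exact ⟨⟨h1, hm.ne'⟩, h2⟩
  rw [h]
  exact_mod_cast Nat.sum_totient _

section
variable {p : ℕ} [hp : Fact p.Prime]

lemma order_gen {γ : (ZMod p)ˣ} (hγ : ∀ x, x ∈ Subgroup.zpowers γ) : orderOf γ = p - 1 := by
  rw [orderOf_eq_card_of_forall_mem_zpowers hγ, Nat.card_eq_fintype_card,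
    ZMod.card_units_eq_totient, Nat.totient_prime hp.out]

lemma exists_pow_gen {γ : (ZMod p)ˣ} (hγ : ∀ x, x ∈ Subgroup.zpowers γ) {b : ZMod p} (hb : b ≠ 0) :
    ∃ k : ℕ, b = ((γ ^ k : (ZMod p)ˣ) : ZMod p) := by
  have h := hγ (Units.mk0 b hb)
  rw [← mem_powers_iff_mem_zpowers] at h
  obtain ⟨k, hk⟩ := h
  refine ⟨k, ?_⟩
  simp only at hk
  rw [hk]
  rfl

lemma pw {γ : (ZMod p)ˣ} (hγ : ∀ x, x ∈ Subgroup.zpowers γ) {n : ℕ} (hn : n ∣ p - 1) (k : ℕ) :
    (∃ y : ZMod p, y ^ n = ((γ ^ k : (ZMod p)ˣ) : ZMod p)) ↔ n ∣ k := by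
  have hp1 : 0 < p - 1 := by have := hp.out.two_le; omega
  have hn0 : n ≠ 0 := by rintro rfl; rw [zero_dvd_iff] at hn; omega
  constructor
  · rintro ⟨y, hy⟩
    have hy0 : y ≠ 0 := by
      rintro rfl
      rw [zero_pow hn0] at hy
      exact (γ ^ k).ne_zero hy.symm
    obtain ⟨m, hm⟩ := exists_pow_gen hγ hy0
    rw [hm] at hy
    have h2 : (γ ^ m) ^ n = γ ^ k := by
      apply Units.ext
      rw [← hy]
      push_cast
      rfl
    rw [← pow_mul, pow_eq_pow_iff_modEq, order_gen hγ] at h2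
    rw [← Nat.ModEq.dvd_iff h2 hn]
    exact dvd_mul_left _ _
  · rintro ⟨m, rfl⟩
    refine ⟨((γ ^ m : (ZMod p)ˣ) : ZMod p), ?_⟩
    rw [← Units.val_pow_eq_pow_val, ← pow_mul, mul_comm]

/-- `b' ^ g` is a `D`-th power iff `b'` is a `D / gcd(D,g)`-th power -/
lemma pow_gcd {D g : ℕ} (hD : D ∣ p - 1) {b : ZMod p} (hb : b ≠ 0) :
    (∃ y : ZMod p, y ^ D = b ^ g) ↔ ∃ y : ZMod p, y ^ (D / Nat.gcd D g) = b := by
  obtain ⟨γ, hγ⟩ := IsCyclic.exists_generator (α := (ZMod p)ˣ)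
  obtain ⟨k, rfl⟩ := exists_pow_gen hγ hb
  have hp1 : 0 < p - 1 := by have := hp.out.two_le; omega
  have hD0 : D ≠ 0 := by rintro rfl; rw [zero_dvd_iff] at hD; omega
  have h1 : (((γ ^ k : (ZMod p)ˣ) : ZMod p)) ^ g = ((γ ^ (k * g) : (ZMod p)ˣ) : ZMod p) := by
    rw [← Units.val_pow_eq_pow_val, ← pow_mul]
  have hgd : 0 < Nat.gcd D g := Nat.gcd_pos_of_pos_left _ (Nat.pos_of_ne_zero hD0)
  rw [h1, pw hγ hD, pw hγ ((Nat.div_dvd_of_dvd (Nat.gcd_dvd_left D g)).trans hD)]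
  have h2 : Nat.Coprime (D / Nat.gcd D g) (g / Nat.gcd D g) := Nat.coprime_div_gcd_div_gcd hgd
  have h3 : D / Nat.gcd D g * Nat.gcd D g = D := Nat.div_mul_cancel (Nat.gcd_dvd_left D g)
  have h4 : g / Nat.gcd D g * Nat.gcd D g = g := Nat.div_mul_cancel (Nat.gcd_dvd_right D g)
  constructor
  · intro h
    have h5 : D / Nat.gcd D g * Nat.gcd D g ∣ k * (g / Nat.gcd D g) * Nat.gcd D g := by
      rw [h3, mul_assoc, h4]
      exact h
    exact h2.dvd_of_dvd_mul_right (Nat.dvd_of_mul_dvd_mul_right hgd h5)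
  · intro h
    calc D = D / Nat.gcd D g * Nat.gcd D g := h3.symm
      _ ∣ k * g := Nat.mul_dvd_mul h (Nat.gcd_dvd_right D g)

lemma cyc_chars : IsCyclic (DirichletCharacter ℂ p) :=
  isCyclic_of_surjective (MulChar.equiv_rootsOfUnity (ZMod p) ℂ).symm
    (MulChar.equiv_rootsOfUnity (ZMod p) ℂ).symm.surjective

lemma card_Xd {n : ℕ} (hn : n ∣ p - 1) : #(Xd n p) = n.totient := by
  classical
  have : IsCyclic (DirichletCharacter ℂ p) := cyc_chars
  let _ : Fintype (DirichletCharacter ℂ p) := Fintype.ofFinite _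
  have hc : Fintype.card (DirichletCharacter ℂ p) = p - 1 := by
    rw [← Nat.card_eq_fintype_card, MulChar.card_eq_card_units_of_hasEnoughRootsOfUnity,
      Nat.card_eq_fintype_card, ZMod.card_units_eq_totient, Nat.totient_prime hp.out]
  rw [← IsCyclic.card_orderOf_eq_totient (α := DirichletCharacter ℂ p) (d := n) (by rw [hc]; exact hn)]
  congr 1
  ext χ
  rw [mem_Xd]
  simp

lemma Xd_empty {n : ℕ} (hn : ¬ n ∣ p - 1) : Xd n p = ∅ := by
  ext χ
  rw [mem_Xd]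
  simp only [notMem_empty, iff_false]
  rintro rfl
  have := MulChar.orderOf_dvd_card_sub_one (F := ZMod p) χ
  rw [ZMod.card] at this
  exact hn this

lemma SS_pow {n : ℕ} (hn : n ∣ p - 1) (y : ZMod p) (hy : y ≠ 0) : SS p n (y ^ n) = n := by
  classical
  have hp1 : 0 < p - 1 := by have := hp.out.two_le; omega
  have hn0 : 0 < n := Nat.pos_of_ne_zero (by rintro rfl; rw [zero_dvd_iff] at hn; omega)
  rw [← SS_eq p n hn0]
  unfold RR
  have h1 : ∀ m ∈ n.divisors, ∑ χ ∈ Xd m p, χ (y ^ n) = (m.totient : ℂ) := by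
    intro m hm
    rw [Nat.mem_divisors] at hm
    have h2 : ∀ χ ∈ Xd m p, χ (y ^ n) = 1 := by
      intro χ hχ
      rw [mem_Xd] at hχ
      have h3 : χ ^ n = 1 := by rw [← orderOf_dvd_iff_pow_eq_one, hχ]; exact hm.1
      rw [map_pow, ← MulChar.pow_apply' _ hn0.ne', h3]
      exact MulChar.one_apply (Ne.isUnit hy)
    rw [Finset.sum_congr rfl h2, Finset.sum_const, card_Xd (hm.1.trans hn)]
    simp
  rw [Finset.sum_congr rfl h1]
  exact_mod_cast Nat.sum_totient n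

lemma SS_not {n : ℕ} (hn : n ∣ p - 1) (b : ZMod p) (hb : b ≠ 0) (h : ¬ ∃ y : ZMod p, y ^ n = b) :
    SS p n b = 0 := by
  classical
  have hp1 : 0 < p - 1 := by have := hp.out.two_le; omega
  have hn0 : 0 < n := Nat.pos_of_ne_zero (by rintro rfl; rw [zero_dvd_iff] at hn; omega)
  obtain ⟨γ, hγ⟩ := IsCyclic.exists_generator (α := (ZMod p)ˣ)
  obtain ⟨k, rfl⟩ := exists_pow_gen hγ hb
  rw [pw hγ hn] at h
  have hcard : Fintype.card (ZMod p)ˣ = p - 1 := by
    rw [ZMod.card_units_eq_totient, Nat.totient_prime hp.out]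
  -- a generating character
  have hz := Complex.isPrimitiveRoot_exp (p - 1) hp1.ne'
  set z := Complex.exp (2 * Real.pi * Complex.I / ((p - 1 : ℕ) : ℂ)) with hzdef
  have hzu : IsUnit z := hz.isUnit hp1.ne'
  have hmem : hzu.unit ∈ rootsOfUnity (Fintype.card (ZMod p)ˣ) ℂ := by
    rw [mem_rootsOfUnity, hcard]
    apply Units.ext
    push_cast
    exact hz.pow_eq_one
  let ψ : DirichletCharacter ℂ p := MulChar.ofRootOfUnity hmem hγ
  have hψ : ψ γ = z := MulChar.ofRootOfUnity_spec hmem hγ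
  obtain ⟨m, hm⟩ := hn
  have hm0 : m ≠ 0 := by rintro rfl; omega
  let χ : DirichletCharacter ℂ p := ψ ^ m
  have hχn : χ ^ n = 1 := by
    show (ψ ^ m) ^ n = 1
    rw [← pow_mul, mul_comm, ← hm, ← hcard]
    exact ψ.pow_card_eq_one
  have hχb : χ ((γ ^ k : (ZMod p)ˣ) : ZMod p) ≠ 1 := by
    show (ψ ^ m) _ ≠ 1
    rw [MulChar.pow_apply' _ hm0, Units.val_pow_eq_pow_val, map_pow, hψ, ← pow_mul]
    intro h1
    rw [hz.pow_eq_one_iff_dvd, hm] at h1
    exact h (Nat.dvd_of_mul_dvd_mul_right (Nat.pos_of_ne_zero hm0) h1)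
  have hχu : χ ^ n = 1 ∧ True := ⟨hχn, trivial⟩
  have hinv : χ ((γ ^ k : (ZMod p)ˣ) : ZMod p) * SS p n ((γ ^ k : (ZMod p)ˣ) : ZMod p) =
      SS p n ((γ ^ k : (ZMod p)ˣ) : ZMod p) := by
    unfold SS
    rw [Finset.mul_sum]
    refine Finset.sum_nbij' (fun χ' => χ * χ') (fun χ' => χ⁻¹ * χ') ?_ ?_ ?_ ?_ ?_
    · intro χ' h'
      simp only [mem_filter, mem_Xall, true_and] at h' ⊢
      rw [mul_pow, h', hχn, one_mul]
    · intro χ' h'
      simp only [mem_filter, mem_Xall, true_and] at h' ⊢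
      rw [mul_pow, h', inv_pow, hχn, inv_one, one_mul]
    · intro χ' h'
      simp
    · intro χ' h'
      simp
    · intro χ' h'
      rw [MulChar.mul_apply]
  have h5 : (χ ((γ ^ k : (ZMod p)ˣ) : ZMod p) - 1) * SS p n ((γ ^ k : (ZMod p)ˣ) : ZMod p) = 0 := by
    rw [sub_mul, hinv]; ring
  rcases mul_eq_zero.1 h5 with h6 | h6
  · exact absurd (sub_eq_zero.1 h6) hχb
  · exact h6

open Classical in
lemma SS_val {n : ℕ} (hn : n ∣ p - 1) (b : ZMod p) (hb : b ≠ 0) :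
    SS p n b = if ∃ y : ZMod p, y ^ n = b then (n : ℂ) else 0 := by
  split_ifs with h
  · obtain ⟨y, rfl⟩ := h
    have hp1 : 0 < p - 1 := by have := hp.out.two_le; omega
    have hn0 : n ≠ 0 := by rintro rfl; rw [zero_dvd_iff] at hn; omega
    refine SS_pow hn y ?_
    rintro rfl
    exact hb (zero_pow hn0)
  · exact SS_not hn b hb h

end

end Pool.Agent.K1H68.RG
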