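import Pool.Agent.K1H76.RG.Stm

/-!
# Natural density implies logarithmic density, for sets of primes
-/

set_option autoImplicit false

namespace Pool.Agent.K1H68.RG

open Filter Finset Topology Asymptotics
open Pool.Agent.K1H76.RG

/-- `log log (n+1) - log log n` -/
noncomputable def gg (n : ℕ) : ℝ :=
  if n < 3 then 0 else Real.log (Real.log (n + 1)) - Real.log (Real.log n)

lemma log_ge_one {n : ℕ} (hn : 3 ≤ n) : 1 < Real.log n := by
  have h3 : (3 : ℝ) ≤ n := by exact_mod_cast hn
  have := Real.log_le_log (by norm_num : (0:ℝ) < 3) h3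
  have h1 : 1 < Real.log 3 := by
    rw [Real.lt_log_iff_exp_lt (by norm_num)]
    have := Real.exp_one_lt_d9
    linarith
  linarith

lemma gg_bounds {n : ℕ} (hn : 3 ≤ n) :
    1 / (((n : ℝ) + 1) * Real.log (n + 1)) ≤ gg n ∧ gg n ≤ 1 / ((n : ℝ) * Real.log n) := by
  have hn0 : (0 : ℝ) < n := by
    have : 0 < n := by omega
    exact_mod_cast this
  have hL : 1 < Real.log n := log_ge_one hn
  have hL1 : 1 < Real.log ((n : ℝ) + 1) := by
    have := log_ge_one (n := n + 1) (by omega)
    push_cast at this
    exact this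
  have hg : gg n = Real.log (Real.log ((n : ℝ) + 1) / Real.log n) := by
    rw [gg, if_neg (by omega), Real.log_div (by linarith) (by linarith)]
  have hd1 : Real.log ((n : ℝ) + 1) - Real.log n ≤ 1 / n := by
    rw [← Real.log_div (by positivity) hn0.ne']
    have h := Real.log_le_sub_one_of_pos (x := ((n : ℝ) + 1) / n) (by positivity)
    have : ((n : ℝ) + 1) / n - 1 = 1 / n := by field_simp; ring
    linarith
  have hd2 : 1 / ((n : ℝ) + 1) ≤ Real.log ((n : ℝ) + 1) - Real.log n := by
    have h := Real.log_le_sub_one_of_pos (x := (n : ℝ) / (n + 1)) (by positivity)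
    rw [Real.log_div hn0.ne' (by positivity)] at h
    have : (n : ℝ) / (n + 1) - 1 = - (1 / ((n : ℝ) + 1)) := by field_simp; ring
    linarith
  rw [hg]
  constructor
  · have h := Real.one_sub_inv_le_log_of_pos (x := Real.log ((n : ℝ) + 1) / Real.log n)
      (by positivity)
    refine le_trans ?_ h
    rw [inv_div]
    have : 1 - Real.log n / Real.log ((n : ℝ) + 1) =
        (Real.log ((n : ℝ) + 1) - Real.log n) / Real.log ((n : ℝ) + 1) := by
      field_simp
    rw [this, ← div_div]
    gcongr
  · have h := Real.log_le_sub_one_of_pos (x := Real.log ((n : ℝ) + 1) / Real.log n)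
      (by positivity)
    refine h.trans ?_
    have : Real.log ((n : ℝ) + 1) / Real.log n - 1 =
        (Real.log ((n : ℝ) + 1) - Real.log n) / Real.log n := by
      field_simp
    rw [this, ← div_div]
    gcongr

lemma gg_pos {n : ℕ} (hn : 3 ≤ n) : 0 < gg n := by
  refine lt_of_lt_of_le ?_ (gg_bounds hn).1
  have hL1 : 1 < Real.log ((n : ℝ) + 1) := by
    have := log_ge_one (n := n + 1) (by omega)
    push_cast at this
    exact this
  positivity

lemma gg_nonneg (n : ℕ) : 0 ≤ gg n := by
  by_cases h : n < 3
  · simp [gg, h]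
  · exact (gg_pos (by omega)).le

lemma sum_gg {x : ℕ} (hx : 3 ≤ x) :
    ∑ n ∈ range x, gg n = Real.log (Real.log x) - Real.log (Real.log 3) := by
  induction x, hx using Nat.le_induction with
  | base => simp [Finset.sum_range_succ, gg]
  | succ x hx ih =>
    rw [Finset.sum_range_succ, ih, gg, if_neg (by omega)]
    push_cast
    ring

lemma tendsto_loglog : Tendsto (fun x : ℕ => Real.log (Real.log (x : ℝ))) atTop atTop :=
  Real.tendsto_log_atTop.comp (Real.tendsto_log_atTop.comp tendsto_natCast_atTop_atTop)

lemma tendsto_sum_gg : Tendsto (fun x : ℕ => ∑ n ∈ range x, gg n) atTop atTop := by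
  have h : Tendsto (fun x : ℕ => Real.log (Real.log (x : ℝ)) + (- Real.log (Real.log 3)))
      atTop atTop := tendsto_loglog.atTop_add tendsto_const_nhds
  refine h.congr' ?_
  filter_upwards [eventually_ge_atTop 3] with x hx
  rw [sum_gg hx]; ring

/-- Abel summation -/
lemma abel_sum (A : ℕ → Prop) [DecidablePred A] (x : ℕ) :
    ∑ p ∈ (Pr x).filter A, 1 / (p : ℝ) =
      (#((Pr x).filter A) : ℝ) / x + ∑ n ∈ range x, (#((Pr n).filter A) : ℝ) / (n * (n + 1)) := by
  have hstep : ∀ n : ℕ, (#((Pr (n + 1)).filter A) : ℝ) = #((Pr n).filter A) +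
      (if (n + 1).Prime ∧ A (n + 1) then 1 else 0) := by
    intro n
    have : (Pr (n + 1)).filter A =
        if (n + 1).Prime ∧ A (n + 1) then insert (n + 1) ((Pr n).filter A) else (Pr n).filter A := by
      ext q
      simp only [Pr, mem_filter, mem_range]
      split_ifs with h
      · simp only [mem_insert, mem_filter, mem_range]
        constructor
        · rintro ⟨⟨h1, h2⟩, h3⟩
          by_cases hq : q = n + 1
          · left; exact hq
          · right; exact ⟨⟨by omega, h2⟩, h3⟩
        · rintro (h1 | ⟨⟨h1, h2⟩, h3⟩)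
          · subst h1; exact ⟨⟨by omega, h.1⟩, h.2⟩
          · exact ⟨⟨by omega, h2⟩, h3⟩
      · simp only [mem_filter, mem_range]
        constructor
        · rintro ⟨⟨h1, h2⟩, h3⟩
          by_cases hq : q = n + 1
          · subst hq; exact absurd ⟨h2, h3⟩ h
          · exact ⟨⟨by omega, h2⟩, h3⟩
        · rintro ⟨⟨h1, h2⟩, h3⟩
          exact ⟨⟨by omega, h2⟩, h3⟩
    rw [this]
    split_ifs with h
    · rw [card_insert_of_notMem]
      · push_cast; ring
      · simp [Pr]
    · simp
  have hsum : ∀ n : ℕ, ∑ p ∈ (Pr (n + 1)).filter A, 1 / (p : ℝ) =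
      ∑ p ∈ (Pr n).filter A, 1 / (p : ℝ) +
      (if (n + 1).Prime ∧ A (n + 1) then 1 else 0) / ((n : ℝ) + 1) := by
    intro n
    rw [Finset.sum_filter, Finset.sum_filter, Pr, Pr, Finset.sum_filter, Finset.sum_filter,
      Finset.sum_range_succ]
    congr 1
    by_cases h1 : (n + 1).Prime <;> by_cases h2 : A (n + 1) <;> simp [h1, h2]
  induction x with
  | zero =>
    have h0 : Pr 0 = ∅ := by
      ext q
      simp only [Pr, mem_filter, mem_range, notMem_empty, iff_false, not_and]
      intro h1 h2
      have := h2.pos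
      omega
    simp [h0]
  | succ x ih =>
    rw [hsum, ih, Finset.sum_range_succ, hstep]
    rcases Nat.eq_zero_or_pos x with h0 | h0
    · subst h0
      simp [Pr]
    · have hx : (0 : ℝ) < x := by exact_mod_cast h0
      push_cast
      field_simp
      ring

lemma card_Pr_le (A : ℕ → Prop) [DecidablePred A] (x : ℕ) :
    (#((Pr x).filter A) : ℝ) ≤ x := by
  have h1 : (Pr x).filter A ⊆ Icc 1 x := by
    intro q hq
    simp only [Pr, mem_filter, mem_range] at hq
    have := hq.1.2.pos
    simp only [mem_Icc]
    omega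
  have := card_le_card h1
  simp at this
  exact_mod_cast this

/-- natural density `c` among `x / log x` gives logarithmic density `c`. -/
theorem logdens (A : ℕ → Prop) [DecidablePred A] {c : ℝ}
    (h : Tendsto (fun x : ℕ => (#((Pr x).filter A) : ℝ) / (x / Real.log x)) atTop (𝓝 c)) :
    Tendsto (fun x : ℕ => (∑ p ∈ (Pr x).filter A, 1 / (p : ℝ)) / Real.log (Real.log x))
      atTop (𝓝 c) := by
  -- the ratio of the terms
  set f : ℕ → ℝ := fun n => (#((Pr n).filter A) : ℝ) / (n * (n + 1)) with hf
  have hu : Tendsto (fun n : ℕ => 1 / (((n : ℝ) + 1) * Real.log n * gg n)) atTop (𝓝 1) := by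
    have hlow : Tendsto (fun n : ℕ => (n : ℝ) / ((n : ℝ) + 1)) atTop (𝓝 1) :=
      tendsto_natCast_div_add_atTop (1 : ℝ)
    have hup : Tendsto (fun n : ℕ => 1 + 1 / (n : ℝ)) atTop (𝓝 1) := by
      have := (tendsto_one_div_atTop_nhds_zero_nat (𝕜 := ℝ)).const_add 1
      simpa using this
    refine tendsto_of_tendsto_of_tendsto_of_le_of_le' hlow hup ?_ ?_
    · filter_upwards [eventually_ge_atTop 3] with n hn
      have hn0 : (0 : ℝ) < n := by
        have : 0 < n := by omega
        exact_mod_cast this
      have hL : 1 < Real.log n := log_ge_one hn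
      have hg := (gg_bounds hn).2
      have hg0 := gg_pos hn
      rw [div_le_div_iff₀ (by positivity) (by positivity)]
      have : (n : ℝ) * Real.log n * gg n ≤ 1 := by
        calc (n : ℝ) * Real.log n * gg n ≤ (n : ℝ) * Real.log n * (1 / ((n : ℝ) * Real.log n)) := by
              gcongr
          _ = 1 := by field_simp
      nlinarith
    · filter_upwards [eventually_ge_atTop 3] with n hn
      have hn0 : (0 : ℝ) < n := by
        have : 0 < n := by omega
        exact_mod_cast this
      have hL : 1 < Real.log n := log_ge_one hn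
      have hL1 : 1 < Real.log ((n : ℝ) + 1) := by
        have := log_ge_one (n := n + 1) (by omega)
        push_cast at this
        exact this
      have hg := (gg_bounds hn).1
      have hg0 := gg_pos hn
      rw [div_le_iff₀ (by positivity)]
      have h1 : 1 ≤ ((n : ℝ) + 1) * Real.log (n + 1) * gg n := by
        calc (1 : ℝ) = ((n : ℝ) + 1) * Real.log (n + 1) * (1 / (((n : ℝ) + 1) * Real.log (n + 1))) := by
              field_simp
          _ ≤ _ := by gcongr
      have hd1 : Real.log ((n : ℝ) + 1) ≤ (1 + 1 / n) * Real.log n := by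
        have h2 : Real.log ((n : ℝ) + 1) - Real.log n ≤ 1 / n := by
          rw [← Real.log_div (by positivity) hn0.ne']
          have h := Real.log_le_sub_one_of_pos (x := ((n : ℝ) + 1) / n) (by positivity)
          have : ((n : ℝ) + 1) / n - 1 = 1 / n := by field_simp; ring
          linarith
        have h3 : (1 : ℝ) / n ≤ 1 / n * Real.log n := by
          have : (0 : ℝ) < 1 / n := by positivity
          nlinarith
        linarith
      calc (1 : ℝ) ≤ ((n : ℝ) + 1) * Real.log (n + 1) * gg n := h1
        _ ≤ ((n : ℝ) + 1) * ((1 + 1 / n) * Real.log n) * gg n := by gcongr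
        _ = _ := by ring
  have hr : Tendsto (fun n : ℕ => f n / gg n) atTop (𝓝 c) := by
    have := h.mul hu
    rw [mul_one] at this
    refine this.congr' ?_
    filter_upwards [eventually_ge_atTop 3] with n hn
    have hn0 : (0 : ℝ) < n := by
      have : 0 < n := by omega
      exact_mod_cast this
    have hL : 1 < Real.log n := log_ge_one hn
    have hL0 : Real.log (n : ℝ) ≠ 0 := by linarith
    have hg0 := gg_pos hn
    simp only [hf]
    field_simp
  have ho : (fun n => f n - c * gg n) =o[atTop] gg := by
    rw [isLittleO_iff_tendsto']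
    · have h1 : Tendsto (fun n : ℕ => f n / gg n - c) atTop (𝓝 0) := by
        have := hr.sub_const c
        simpa using this
      refine h1.congr' ?_
      filter_upwards [eventually_ge_atTop 3] with n hn
      have hg0 := gg_pos hn
      field_simp
    · filter_upwards [eventually_ge_atTop 3] with n hn h0
      exact absurd h0 (gg_pos hn).ne'
  have hs := ho.sum_range (fun n => gg_nonneg n) tendsto_sum_gg
  have hs' : Tendsto (fun x : ℕ => (∑ n ∈ range x, (f n - c * gg n)) / ∑ n ∈ range x, gg n)
      atTop (𝓝 0) := hs.tendsto_div_nhds_zero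
  -- Σ g / loglog → 1
  have hg1 : Tendsto (fun x : ℕ => (∑ n ∈ range x, gg n) / Real.log (Real.log x)) atTop (𝓝 1) := by
    have h1 : Tendsto (fun x : ℕ => 1 - Real.log (Real.log 3) * (Real.log (Real.log (x : ℝ)))⁻¹)
        atTop (𝓝 (1 - Real.log (Real.log 3) * 0)) :=
      (tendsto_inv_atTop_zero.comp tendsto_loglog).const_mul _ |>.const_sub 1
    rw [mul_zero, sub_zero] at h1
    refine h1.congr' ?_
    filter_upwards [eventually_ge_atTop 3, tendsto_loglog.eventually_gt_atTop 0] with x hx hx0
    rw [sum_gg hx]
    field_simp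
  have hb : Tendsto (fun x : ℕ => ((#((Pr x).filter A) : ℝ) / x) / Real.log (Real.log x))
      atTop (𝓝 0) := by
    have h1 : Tendsto (fun x : ℕ => (Real.log (Real.log (x : ℝ)))⁻¹) atTop (𝓝 0) :=
      tendsto_inv_atTop_zero.comp tendsto_loglog
    refine tendsto_of_tendsto_of_tendsto_of_le_of_le' tendsto_const_nhds h1 ?_ ?_
    · filter_upwards [tendsto_loglog.eventually_gt_atTop 0] with x hx0
      positivity
    · filter_upwards [tendsto_loglog.eventually_gt_atTop 0, eventually_ge_atTop 3] with x hx0 hx
      have hn0 : (0 : ℝ) < x := by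
        have : 0 < x := by omega
        exact_mod_cast this
      rw [div_eq_mul_inv]
      have : (#((Pr x).filter A) : ℝ) / x ≤ 1 := by
        rw [div_le_one hn0]
        exact card_Pr_le A x
      have h0 : (0 : ℝ) < (Real.log (Real.log (x : ℝ)))⁻¹ := by positivity
      nlinarith
  have hfin := (hb.add ((hs'.mul hg1).add (hg1.const_mul c)))
  simp only [zero_add, mul_one] at hfin
  refine hfin.congr' ?_
  filter_upwards [tendsto_loglog.eventually_gt_atTop 0, tendsto_sum_gg.eventually_gt_atTop 0]
    with x hx0 hx1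
  rw [abel_sum, Finset.sum_sub_distrib, ← Finset.mul_sum]
  simp only [hf]
  field_simp
  ring

end Pool.Agent.K1H68.RG
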