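import Pool.Agent.K1H68.RG.Ld
import Pool.Agent.K1H68.RG.Ch

/-!
# RG A4: equidistribution of the values of the characters of order `d`
-/

set_option autoImplicit false

namespace Pool.Agent.K1H68.RG

open Filter Finset Topology
open Pool.Agent.K1H76.RG

/-- the condition of `S_DEN` attached to an exponent vector `J` and a divisor `D` -/
def AA (d : ℕ) (K : Finset ℕ) (J : ℕ → ℕ) (D : ℕ) (p : ℕ) : Prop :=
  p % d = 1 % d ∧ ∃ y : ZMod p, y ^ (D / Nat.gcd D (K.gcd J)) =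
    ((∏ q ∈ K, q ^ (J q / K.gcd J) : ℕ) : ZMod p)

open Classical in
lemma AA_dens (hDEN : S_DEN) {d : ℕ} (hd : 1 ≤ d) {K : Finset ℕ} (hK : ∀ q ∈ K, q.Prime ∧ ¬ q ∣ d)
    (J : ℕ → ℕ) {D : ℕ} (hD : D ∣ d) :
    Tendsto (fun x : ℕ => (∑ p ∈ (Pr x).filter (AA d K J D), 1 / (p : ℝ)) / Real.log (Real.log x))
      atTop (𝓝 (1 / (d.totient * (D / Nat.gcd D (K.gcd J) : ℕ) : ℝ))) := by
  have hD0 : 0 < D := Nat.pos_of_dvd_of_pos hD hd
  refine logdens _ ?_
  refine (hDEN d (D / Nat.gcd D (K.gcd J)) hd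
    ((Nat.div_dvd_of_dvd (Nat.gcd_dvd_left _ _)).trans hD) K hK (fun q => J q / K.gcd J) ?_).congr
    fun x => ?_
  swap
  · congr 3
    ext p
    simp only [mem_filter, AA]
  intro r hr hre
  by_contra hcon
  push Not at hcon
  rcases Nat.eq_zero_or_pos (K.gcd J) with h0 | h0
  · rw [h0, Nat.gcd_zero_right, Nat.div_self hD0] at hre
    exact hr.one_lt.ne' (Nat.dvd_one.1 hre)
  · have h1 : ∀ q ∈ K, K.gcd J * r ∣ J q := by
      intro q hq
      obtain ⟨m, hm⟩ := Finset.gcd_dvd (f := J) hq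
      have h2 := hcon q hq
      rw [hm, Nat.mul_div_cancel_left _ h0] at h2
      rw [hm]
      exact Nat.mul_dvd_mul_left _ h2
    have h2 : K.gcd J * r ∣ K.gcd J := Finset.dvd_gcd h1
    have h3 := Nat.le_of_dvd h0 h2
    have h4 := hr.two_le
    nlinarith

open Classical in
lemma RR_val {d : ℕ} (hd : 1 ≤ d) {K : Finset ℕ} (hK : ∀ q ∈ K, q.Prime ∧ ¬ q ∣ d)
    (J : ℕ → ℕ) {p : ℕ} (hp : p.Prime) (hpK : p ∉ K) :
    RR p d ((∏ q ∈ K, q ^ J q : ℕ) : ZMod p) =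
      ∑ x ∈ d.divisorsAntidiagonal, (ArithmeticFunction.moebius x.1 : ℂ) *
        (if AA d K J x.2 p then (x.2 : ℂ) else 0) := by
  have : Fact p.Prime := ⟨hp⟩
  by_cases hmod : p % d = 1 % d
  · have hdp : d ∣ p - 1 := (Nat.modEq_iff_dvd' hp.one_le).1 (Eq.symm hmod)
    rw [RR_eq p d hd]
    refine Finset.sum_congr rfl fun x hx => ?_
    rw [Nat.mem_divisorsAntidiagonal] at hx
    have hxd : x.2 ∣ d := ⟨x.1, by rw [mul_comm]; exact hx.1.symm⟩
    congr 1
    have hne : ∀ f : ℕ → ℕ, ((∏ q ∈ K, q ^ f q : ℕ) : ZMod p) ≠ 0 := by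
      intro f h0
      rw [ZMod.natCast_eq_zero_iff] at h0
      rw [hp.prime.dvd_finsetProd_iff] at h0
      obtain ⟨q, hq, hpq⟩ := h0
      have h1 := hp.dvd_of_dvd_pow hpq
      have h2 := (Nat.prime_dvd_prime_iff_eq hp (hK q hq).1).1 h1
      exact hpK (h2 ▸ hq)
    rw [SS_val (hxd.trans hdp) _ (hne J)]
    have hb : ((∏ q ∈ K, q ^ J q : ℕ) : ZMod p) =
        ((∏ q ∈ K, q ^ (J q / K.gcd J) : ℕ) : ZMod p) ^ (K.gcd J) := by
      rw [← Nat.cast_pow, ← Finset.prod_pow]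
      congr 1
      refine Finset.prod_congr rfl fun q hq => ?_
      rw [← pow_mul, Nat.div_mul_cancel (Finset.gcd_dvd hq)]
    have hiff : (∃ y : ZMod p, y ^ x.2 = ((∏ q ∈ K, q ^ J q : ℕ) : ZMod p)) ↔ AA d K J x.2 p := by
      rw [hb, pow_gcd (hxd.trans hdp) (hne _), AA]
      exact ⟨fun h => ⟨hmod, h⟩, fun h => h.2⟩
    simp only [hiff]
  · have hdp : ¬ d ∣ p - 1 := by
      intro h
      exact hmod ((Nat.modEq_iff_dvd' hp.one_le).2 h).symm
    rw [RR, Xd_empty hdp, Finset.sum_empty]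
    symm
    refine Finset.sum_eq_zero fun x hx => ?_
    rw [if_neg (fun h => hmod h.1), mul_zero]

lemma geom_ind {d : ℕ} (hd : 1 ≤ d) (z : ℂ) (hz : z ^ d = 1) :
    (1 / (d : ℂ)) * ∑ j ∈ range d, z ^ j = if z = 1 then 1 else 0 := by
  have hd0 : (d : ℂ) ≠ 0 := by
    have : d ≠ 0 := by omega
    exact_mod_cast this
  split_ifs with h
  · subst h
    simp [hd0]
  · have h1 := mul_neg_geom_sum z d
    rw [hz, sub_self] at h1
    rcases mul_eq_zero.1 h1 with h2 | h2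
    · exact absurd (sub_eq_zero.1 h2).symm h
    · rw [h2, mul_zero]

/-- extension by zero of an exponent vector -/
def ex {K : Finset ℕ} (J : ↥K → ℕ) : ℕ → ℕ := fun q => if h : q ∈ K then J ⟨q, h⟩ else 0

lemma ex_coe {K : Finset ℕ} (J : ↥K → ℕ) (q : ↥K) : ex J q = J q := by
  simp [ex]

/-- the Fourier weight -/
noncomputable def ww (d : ℕ) (ζ : ℂ) (K : Finset ℕ) (v : ℕ → ℕ) (J : ↥K → ℕ) : ℂ :=
  ∏ q : ↥K, (1 / (d : ℂ)) * (ζ⁻¹ ^ v q) ^ J q

open Classical in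
/-- Fourier expansion of the count -/
lemma count_eq {d : ℕ} (hd : 1 ≤ d) {ζ : ℂ} (hζ : IsPrimitiveRoot ζ d) {K : Finset ℕ}
    (hK : ∀ q ∈ K, q.Prime ∧ ¬ q ∣ d) (v : ℕ → ℕ) {p : ℕ} (hp : p.Prime) (hpK : p ∉ K) :
    (#((Xd d p).filter fun χ => ∀ q ∈ K, χ (q : ZMod p) = ζ ^ v q) : ℂ) =
      ∑ J ∈ Fintype.piFinset (fun _ : ↥K => range d), ww d ζ K v J *
        RR p d ((∏ q ∈ K, q ^ ex J q : ℕ) : ZMod p) := by
  have : Fact p.Prime := ⟨hp⟩
  have hζ0 : ζ ≠ 0 := hζ.ne_zero (by omega)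
  have hne : ∀ q ∈ K, (q : ZMod p) ≠ 0 := by
    intro q hq h0
    rw [ZMod.natCast_eq_zero_iff] at h0
    have h2 := (Nat.prime_dvd_prime_iff_eq hp (hK q hq).1).1 h0
    exact hpK (h2 ▸ hq)
  have h1 : (#((Xd d p).filter fun χ => ∀ q ∈ K, χ (q : ZMod p) = ζ ^ v q) : ℂ) =
      ∑ χ ∈ Xd d p, ∏ q : ↥K, ∑ j ∈ range d,
        (1 / (d : ℂ)) * (ζ⁻¹ ^ v q) ^ j * (χ ((q : ℕ) : ZMod p)) ^ j := by
    rw [Finset.card_filter]
    push_cast
    refine Finset.sum_congr rfl fun χ hχ => ?_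
    rw [mem_Xd] at hχ
    have h2 : ∀ q : ↥K, ∑ j ∈ range d,
        (1 / (d : ℂ)) * (ζ⁻¹ ^ v q) ^ j * (χ ((q : ℕ) : ZMod p)) ^ j =
        if χ ((q : ℕ) : ZMod p) = ζ ^ v q then 1 else 0 := by
      intro q
      have h3 : ζ⁻¹ ^ v q * χ ((q : ℕ) : ZMod p) = 1 ↔ χ ((q : ℕ) : ZMod p) = ζ ^ v q := by
        rw [inv_pow]
        have h4 : ζ ^ v q ≠ 0 := pow_ne_zero _ hζ0
        constructor
        · intro h
          field_simp at h
          exact h
        · intro h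
          rw [h]; field_simp
      rw [← Finset.sum_congr rfl (fun j _ => show (1 / (d : ℂ)) * (ζ⁻¹ ^ v q * χ ((q : ℕ) : ZMod p)) ^ j
        = (1 / (d : ℂ)) * (ζ⁻¹ ^ v q) ^ j * (χ ((q : ℕ) : ZMod p)) ^ j by rw [mul_pow]; ring),
        ← Finset.mul_sum, geom_ind hd]
      · simp only [h3]
      · rw [mul_pow, ← pow_mul, mul_comm (v q) d, pow_mul, inv_pow, hζ.pow_eq_one, inv_one, one_pow,
          one_mul, ← MulChar.pow_apply' _ (by omega)]
        have h5 : χ ^ d = 1 := by rw [← hχ]; exact pow_orderOf_eq_one χ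
        rw [h5]
        exact MulChar.one_apply (Ne.isUnit (hne q q.2))
    rw [Finset.prod_congr rfl (fun q _ => h2 q)]
    split_ifs with h
    · symm
      refine Finset.prod_eq_one fun q _ => ?_
      rw [if_pos (h q q.2)]
    · push Not at h
      obtain ⟨q, hq, hqn⟩ := h
      symm
      refine Finset.prod_eq_zero (mem_univ (⟨q, hq⟩ : ↥K)) ?_
      rw [if_neg hqn]
  rw [h1]
  have h2 : ∀ χ ∈ Xd d p, ∏ q : ↥K, ∑ j ∈ range d,
        (1 / (d : ℂ)) * (ζ⁻¹ ^ v q) ^ j * (χ ((q : ℕ) : ZMod p)) ^ j =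
      ∑ J ∈ Fintype.piFinset (fun _ : ↥K => range d), ww d ζ K v J *
        χ ((∏ q ∈ K, q ^ ex J q : ℕ) : ZMod p) := by
    intro χ _
    rw [Finset.prod_univ_sum]
    refine Finset.sum_congr rfl fun J _ => ?_
    rw [ww, Nat.cast_prod, map_prod, ← Finset.prod_coe_sort K, ← Finset.prod_mul_distrib]
    refine Finset.prod_congr rfl fun q _ => ?_
    rw [ex_coe, Nat.cast_pow, map_pow]
  rw [Finset.sum_congr rfl h2, Finset.sum_comm]
  refine Finset.sum_congr rfl fun J _ => ?_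
  rw [← Finset.mul_sum, RR]

open Classical in
/-- the main term -/
noncomputable def FF (d : ℕ) (ζ : ℂ) (K : Finset ℕ) (v : ℕ → ℕ) (p : ℕ) : ℂ :=
  ∑ J ∈ Fintype.piFinset (fun _ : ↥K => range d), ww d ζ K v J *
    ∑ x ∈ d.divisorsAntidiagonal, (ArithmeticFunction.moebius x.1 : ℂ) *
        (if AA d K (ex J) x.2 p then (x.2 : ℂ) else 0)

open Classical in
lemma FF_mean (hDEN : S_DEN) {d : ℕ} (hd : 1 ≤ d) (ζ : ℂ) {K : Finset ℕ}
    (hK : ∀ q ∈ K, q.Prime ∧ ¬ q ∣ d) (v : ℕ → ℕ) :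
    Tendsto (fun x : ℕ => (∑ p ∈ Pr x, (1 / (p : ℂ)) * FF d ζ K v p) /
      ((Real.log (Real.log x) : ℝ) : ℂ)) atTop (𝓝 (1 / (d : ℂ) ^ #K)) := by
  have hdt : (d.totient : ℂ) ≠ 0 := by
    have := Nat.totient_pos.2 hd
    exact_mod_cast this.ne'
  have h1 : ∀ x : ℕ, (∑ p ∈ Pr x, (1 / (p : ℂ)) * FF d ζ K v p) / ((Real.log (Real.log x) : ℝ) : ℂ) =
      ∑ J ∈ Fintype.piFinset (fun _ : ↥K => range d), ww d ζ K v J *
      ∑ y ∈ d.divisorsAntidiagonal, (ArithmeticFunction.moebius y.1 : ℂ) * ((y.2 : ℂ) *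
        (((∑ p ∈ (Pr x).filter (AA d K (ex J) y.2), 1 / (p : ℝ)) / Real.log (Real.log x) : ℝ) : ℂ)) := by
    intro x
    rw [Finset.sum_div]
    simp only [FF, Finset.mul_sum, Finset.sum_div]
    rw [Finset.sum_comm]
    refine Finset.sum_congr rfl fun J _ => ?_
    rw [Finset.sum_comm]
    refine Finset.sum_congr rfl fun y _ => ?_
    push_cast
    rw [Finset.sum_filter, Finset.mul_sum, Finset.mul_sum, Finset.mul_sum]
    refine Finset.sum_congr rfl fun p _ => ?_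
    split_ifs
    · simp; ring
    · simp
  simp_rw [h1]
  have hlim : Tendsto (fun x : ℕ => ∑ J ∈ Fintype.piFinset (fun _ : ↥K => range d), ww d ζ K v J *
      ∑ y ∈ d.divisorsAntidiagonal, (ArithmeticFunction.moebius y.1 : ℂ) * ((y.2 : ℂ) *
        (((∑ p ∈ (Pr x).filter (AA d K (ex J) y.2), 1 / (p : ℝ)) / Real.log (Real.log x) : ℝ) : ℂ)))
      atTop (𝓝 (∑ J ∈ Fintype.piFinset (fun _ : ↥K => range d), ww d ζ K v J *
      ∑ y ∈ d.divisorsAntidiagonal, (ArithmeticFunction.moebius y.1 : ℂ) * ((y.2 : ℂ) *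
        ((1 / (d.totient * (y.2 / Nat.gcd y.2 (K.gcd (ex J)) : ℕ) : ℝ) : ℝ) : ℂ)))) := by
    refine tendsto_finsetSum _ fun J _ => ?_
    refine Tendsto.const_mul _ ?_
    refine tendsto_finsetSum _ fun y hy => ?_
    refine Tendsto.const_mul _ (Tendsto.const_mul _ ?_)
    rw [Nat.mem_divisorsAntidiagonal] at hy
    have hyd : y.2 ∣ d := ⟨y.1, by rw [mul_comm]; exact hy.1.symm⟩
    exact (Complex.continuous_ofReal.tendsto _).comp (AA_dens hDEN hd hK (ex J) hyd)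
  convert hlim using 2
  -- evaluate the limit
  have h2 : ∀ J : ↥K → ℕ, ∑ y ∈ d.divisorsAntidiagonal, (ArithmeticFunction.moebius y.1 : ℂ) *
      ((y.2 : ℂ) * ((1 / (d.totient * (y.2 / Nat.gcd y.2 (K.gcd (ex J)) : ℕ) : ℝ) : ℝ) : ℂ)) =
      if d ∣ K.gcd (ex J) then 1 else 0 := by
    intro J
    have h3 : ∀ y ∈ d.divisorsAntidiagonal, (ArithmeticFunction.moebius y.1 : ℂ) *
      ((y.2 : ℂ) * ((1 / (d.totient * (y.2 / Nat.gcd y.2 (K.gcd (ex J)) : ℕ) : ℝ) : ℝ) : ℂ)) =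
      (1 / (d.totient : ℂ)) * ((ArithmeticFunction.moebius y.1 : ℂ) *
        (Nat.gcd y.2 (K.gcd (ex J)) : ℂ)) := by
      intro y hy
      rw [Nat.mem_divisorsAntidiagonal] at hy
      have hy2 : y.2 ≠ 0 := by
        intro h; rw [h, mul_zero] at hy; exact hy.2 hy.1.symm
      have hdvd := Nat.gcd_dvd_left y.2 (K.gcd (ex J))
      have hg0 : Nat.gcd y.2 (K.gcd (ex J)) ≠ 0 := by
        intro h; rw [Nat.gcd_eq_zero_iff] at h; exact hy2 h.1
      have hq0 : y.2 / Nat.gcd y.2 (K.gcd (ex J)) ≠ 0 := by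
        intro h
        have := Nat.div_mul_cancel hdvd
        rw [h, zero_mul] at this
        exact hy2 this.symm
      have h4 : (y.2 : ℂ) = ((y.2 / Nat.gcd y.2 (K.gcd (ex J)) : ℕ) : ℂ) *
          (Nat.gcd y.2 (K.gcd (ex J)) : ℂ) := by
        have := Nat.div_mul_cancel hdvd
        exact_mod_cast this.symm
      have hq0' : ((y.2 / Nat.gcd y.2 (K.gcd (ex J)) : ℕ) : ℂ) ≠ 0 := by exact_mod_cast hq0
      rw [Complex.ofReal_div, Complex.ofReal_mul, Complex.ofReal_one, Complex.ofReal_natCast,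
        Complex.ofReal_natCast]
      generalize ((y.2 / Nat.gcd y.2 (K.gcd (ex J)) : ℕ) : ℂ) = u at *
      rw [h4]
      field_simp
    rw [Finset.sum_congr rfl h3, ← Finset.mul_sum, moebius_gcd d _ hd]
    split_ifs
    · field_simp
    · simp
  simp_rw [h2]
  rw [Finset.sum_eq_single (fun _ : ↥K => (0 : ℕ))]
  · have hex : ex (fun _ : ↥K => (0 : ℕ)) = fun _ => 0 := by
      funext q; simp [ex]
    have hg : K.gcd (ex (fun _ : ↥K => (0 : ℕ))) = 0 := by
      rw [hex, Finset.gcd_eq_zero_iff]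
      intro q _; rfl
    rw [hg, if_pos (dvd_zero d), ww]
    simp
  · intro J hJ hne
    rw [if_neg, mul_zero]
    intro hdv
    apply hne
    funext q
    have h5 : d ∣ ex J q := hdv.trans (Finset.gcd_dvd q.2)
    rw [ex_coe] at h5
    rw [Fintype.mem_piFinset] at hJ
    have h6 := mem_range.1 (hJ q)
    exact Nat.eq_zero_of_dvd_of_lt h5 h6
  · intro h
    exfalso
    apply h
    rw [Fintype.mem_piFinset]
    intro q
    rw [mem_range]
    omega

theorem t_PAT (h : S_DEN) : S_PAT := by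
  classical
  intro d hd ζ hζ K hK v ε hε
  have hd1 : 1 ≤ d := by omega
  set N : ℕ → ℕ := fun p => #((Xd d p).filter fun χ => ∀ q ∈ K, χ (q : ZMod p) = ζ ^ v q) with hN
  set C : ℝ := ∑ p ∈ K, ‖(N p : ℂ) - FF d ζ K v p‖ with hC
  -- the error term
  have hE : Tendsto (fun x : ℕ => (∑ p ∈ Pr x, (1 / (p : ℂ)) * ((N p : ℂ) - FF d ζ K v p)) /
      ((Real.log (Real.log x) : ℝ) : ℂ)) atTop (𝓝 0) := by
    have h0 : Tendsto (fun x : ℕ => C * (Real.log (Real.log (x : ℝ)))⁻¹) atTop (𝓝 0) := by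
      have := (tendsto_inv_atTop_zero.comp tendsto_loglog).const_mul C
      simpa using this
    refine squeeze_zero_norm' ?_ h0
    filter_upwards [tendsto_loglog.eventually_gt_atTop 0] with x hx
    rw [norm_div, Complex.norm_real, Real.norm_eq_abs, abs_of_pos hx, div_eq_mul_inv]
    have hle : ‖∑ p ∈ Pr x, (1 / (p : ℂ)) * ((N p : ℂ) - FF d ζ K v p)‖ ≤ C := by
      calc ‖∑ p ∈ Pr x, (1 / (p : ℂ)) * ((N p : ℂ) - FF d ζ K v p)‖
          ≤ ∑ p ∈ Pr x, ‖(1 / (p : ℂ)) * ((N p : ℂ) - FF d ζ K v p)‖ := norm_sum_le _ _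
        _ = ∑ p ∈ (Pr x).filter (· ∈ K), ‖(1 / (p : ℂ)) * ((N p : ℂ) - FF d ζ K v p)‖ := by
            symm
            refine Finset.sum_filter_of_ne fun p hp hne => ?_
            by_contra hpK
            apply hne
            have hpp : p.Prime := by
              simp only [Pr, mem_filter] at hp; exact hp.2
            have h1 : (N p : ℂ) = FF d ζ K v p := by
              rw [hN, count_eq hd1 hζ hK v hpp hpK, FF]
              refine Finset.sum_congr rfl fun J _ => ?_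
              rw [RR_val hd1 hK (ex J) hpp hpK]
            rw [h1, sub_self, mul_zero, norm_zero]
        _ ≤ ∑ p ∈ (Pr x).filter (· ∈ K), ‖(N p : ℂ) - FF d ζ K v p‖ := by
            refine Finset.sum_le_sum fun p hp => ?_
            rw [norm_mul]
            have hpp : p.Prime := by
              simp only [Pr, mem_filter] at hp; exact hp.1.2
            have h1 : ‖(1 / (p : ℂ))‖ ≤ 1 := by
              rw [norm_div, norm_one, Complex.norm_natCast]
              rw [div_le_one (by exact_mod_cast hpp.pos)]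
              exact_mod_cast hpp.one_le
            calc _ ≤ 1 * ‖(N p : ℂ) - FF d ζ K v p‖ := by gcongr
              _ = _ := one_mul _
        _ ≤ C := by
            refine Finset.sum_le_sum_of_subset_of_nonneg ?_ (fun _ _ _ => norm_nonneg _)
            intro p hp
            exact (mem_filter.1 hp).2
    have : (0 : ℝ) < (Real.log (Real.log (x : ℝ)))⁻¹ := by positivity
    gcongr
  have hT := (FF_mean h hd1 ζ hK v).add hE
  rw [add_zero] at hT
  have hT2 : Tendsto (fun x : ℕ => (∑ p ∈ Pr x, (1 / (p : ℝ)) * (N p : ℝ)) / Real.log (Real.log x))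
      atTop (𝓝 (1 / (d : ℝ) ^ #K)) := by
    have h3 := (Complex.continuous_re.tendsto _).comp hT
    have h4 : (1 / (d : ℂ) ^ #K).re = 1 / (d : ℝ) ^ #K := by
      have : (1 / (d : ℂ) ^ #K) = ((1 / (d : ℝ) ^ #K : ℝ) : ℂ) := by push_cast; rfl
      rw [this, Complex.ofReal_re]
    rw [h4] at h3
    refine h3.congr fun x => ?_
    simp only [Function.comp]
    rw [← add_div, ← Finset.sum_add_distrib]
    have h5 : (∑ p ∈ Pr x, ((1 / (p : ℂ)) * FF d ζ K v p +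
        (1 / (p : ℂ)) * ((N p : ℂ) - FF d ζ K v p))) / ((Real.log (Real.log x) : ℝ) : ℂ) =
        (((∑ p ∈ Pr x, (1 / (p : ℝ)) * (N p : ℝ)) / Real.log (Real.log x) : ℝ) : ℂ) := by
      push_cast
      congr 1
      refine Finset.sum_congr rfl fun p _ => ?_
      ring
    rw [h5, Complex.ofReal_re]
  have hlt : (1 / (d : ℝ) ^ #K) < 1 / (d : ℝ) ^ #K + ε := by linarith
  filter_upwards [hT2.eventually (gt_mem_nhds hlt), tendsto_loglog.eventually_gt_atTop 0]
    with x hx hx0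
  rw [div_lt_iff₀ hx0] at hx
  exact hx.le

end Pool.Agent.K1H68.RG
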